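import Pool.Agent.H752.GM.Stubs
import Pool.Agent.H620R2.Gauge2.CoverN

/-!
# Task T2: the test language separates the levels for all oracles off a small set (helper355)
-/

namespace Pool.Agent.H752.GM

open Pool.Agent.NPC Pool.Agent.H620R2.Gauge Finset H568R2 Pool.Agent.H676 Filter

namespace T2

/-- the inputs -/
def inT (n j : ℕ) : List Bool := List.replicate (n - n / 2) false ++ bitsOf (n / 2) j

theorem length_inT (n j : ℕ) : (inT n j).length = n := by
  unfold inT
  rw [List.length_append, List.length_replicate, length_bitsOf]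
  omega

theorem inT_inj {n j j' : ℕ} (hj : j < 2 ^ (n / 2)) (hj' : j' < 2 ^ (n / 2))
    (h : inT n j = inT n j') : j = j' :=
  bitsOf_inj hj hj' (List.append_cancel_left h)

/-- a string of a slot -/
def slT (n j : ℕ) (w : List Bool) (i : ℕ) : List Bool :=
  pairBits (inT n j) (w ++ List.replicate i true)

theorem length_slT (n j : ℕ) (w : List Bool) (i : ℕ) :
    (slT n j w i).length = 2 * n + 1 + w.length + i := by
  unfold slT
  rw [length_pairBits, length_inT, List.length_append, List.length_replicate]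
  ring

theorem slT_inj {n j j' i i' : ℕ} {w w' : List Bool} (hj : j < 2 ^ (n / 2))
    (hj' : j' < 2 ^ (n / 2)) (hw : w.length = w'.length) (h : slT n j w i = slT n j' w' i') :
    j = j' ∧ w = w' ∧ i = i' := by
  have h1 := congrArg unpair h
  unfold slT at h1
  rw [unpair_pairBits, unpair_pairBits, Prod.mk.injEq] at h1
  obtain ⟨h2, h3⟩ := h1
  obtain ⟨h4, h5⟩ := List.append_inj h3 hw
  refine ⟨inT_inj hj hj' h2, h4, ?_⟩
  have h6 := congrArg List.length h5
  simpa using h6

/-- position of a string of a slot -/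
def posT (n m N : ℕ) (hN : 2 ^ (2 * n + 2 * m + 2) ≤ N) (x : Fin (2 ^ (n / 2)))
    (w : Fin m → Bool) (i : Fin m) : Fin N :=
  ⟨idx (slT n x.val (List.ofFn w) i.val), by
    have h1 := idx_lt (slT n x.val (List.ofFn w) i.val)
    rw [length_slT, List.length_ofFn] at h1
    have h2 := i.2
    have h3 : 2 ^ (2 * n + 1 + m + i.val + 1) ≤ 2 ^ (2 * n + 2 * m + 2) :=
      Nat.pow_le_pow_right (by norm_num) (by omega)
    omega⟩

theorem posT_inj (n m N : ℕ) (hN : 2 ^ (2 * n + 2 * m + 2) ≤ N) :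
    Function.Injective (fun t : Fin (2 ^ (n / 2)) × (Fin m → Bool) × Fin m =>
      posT n m N hN t.1 t.2.1 t.2.2) := by
  rintro ⟨x, w, i⟩ ⟨x', w', i'⟩ h
  have h1 : idx (slT n x.val (List.ofFn w) i.val) = idx (slT n x'.val (List.ofFn w') i'.val) :=
    congrArg Fin.val h
  have h2 : slT n x.val (List.ofFn w) i.val = slT n x'.val (List.ofFn w') i'.val := by
    rw [← str_idx (slT n x.val (List.ofFn w) i.val), h1, str_idx]
  obtain ⟨h3, h4, h5⟩ := slT_inj x.2 x'.2 (by rw [List.length_ofFn, List.length_ofFn]) h2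
  have h6 := Fin.ext h3
  have h7 := List.ofFn_injective h4
  have h8 := Fin.ext h5
  rw [h6, h7, h8]

open Classical in
/-- what the machine says -/
noncomputable def outT (M : Alg) (G n N : ℕ) (x : Fin (2 ^ (n / 2))) (a : Fin N → Bool) : Bool :=
  decide (∃ w : List Bool, w.length ≤ G ∧ leaf M N (pairBits w (inT n x.val)) a = true)

theorem length_of_mem_strsOf {c : ℕ} {w : List Bool} (h : w ∈ strsOf c) : w.length = c := by
  obtain ⟨i, _, rfl⟩ := Finset.mem_image.1 h
  exact length_bitsOf _ _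

theorem sum_two_pow (G : ℕ) : ∑ c ∈ Finset.range (G + 1), 2 ^ c ≤ 2 ^ (G + 1) := by
  induction G with
  | zero => simp
  | succ G ih =>
    rw [Finset.sum_range_succ, pow_succ 2 (G + 1)]
    omega

theorem outT_cert (M : Alg) (G n N t : ℕ)
    (ht : ∀ c : ℕ, c ≤ G → M.p.eval (2 * c + 1 + n) ≤ t) (x : Fin (2 ^ (n / 2)))
    (a : Fin N → Bool) :
    ∃ Q : Finset (Fin N), Q.card ≤ 2 ^ (G + 1) * t ∧
      ∀ a' : Fin N → Bool, (∀ e ∈ Q, a' e = a e) → outT M G n N x a' = outT M G n N x a := by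
  classical
  have h1 : ∀ w : List Bool, ∃ Q : Finset (Fin N),
      Q.card ≤ M.p.eval (pairBits w (inT n x.val)).length ∧
      ∀ a' : Fin N → Bool, (∀ e ∈ Q, a' e = a e) →
        leaf M N (pairBits w (inT n x.val)) a' = leaf M N (pairBits w (inT n x.val)) a := by
    intro w
    obtain ⟨Q, hQ, hQ2⟩ := (dtr_out M N (pairBits w (inT n x.val))).cert
      (leaf M N (pairBits w (inT n x.val)) a) a rfl
    exact ⟨Q, hQ, fun a' ha' => hQ2 a' ha'⟩
  choose Qf hQf hQf2 using h1
  set W : Finset (List Bool) := (Finset.range (G + 1)).biUnion strsOf with hW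
  have hWc : W.card ≤ 2 ^ (G + 1) := by
    refine Finset.card_biUnion_le.trans ?_
    exact (Finset.sum_le_sum fun c _ => card_strsOf c).trans (sum_two_pow G)
  have hWm : ∀ w : List Bool, w ∈ W ↔ w.length ≤ G := by
    intro w
    rw [hW, Finset.mem_biUnion]
    constructor
    · rintro ⟨c, hc, hw⟩
      rw [length_of_mem_strsOf hw]
      rw [Finset.mem_range] at hc
      omega
    · intro hw
      exact ⟨w.length, Finset.mem_range.2 (by omega), mem_strsOf w⟩
  refine ⟨W.biUnion Qf, ?_, ?_⟩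
  · refine (Finset.card_biUnion_le_card_mul W Qf t ?_).trans (Nat.mul_le_mul_right t hWc)
    intro w hw
    refine (hQf w).trans ?_
    rw [length_pairBits, length_inT]
    exact ht _ ((hWm w).1 hw)
  · intro a' ha'
    have h2 : ∀ w : List Bool, w.length ≤ G →
        leaf M N (pairBits w (inT n x.val)) a' = leaf M N (pairBits w (inT n x.val)) a := by
      intro w hw
      exact hQf2 w a' fun e he => ha' e (Finset.mem_biUnion.2 ⟨w, (hWm w).2 hw, he⟩)
    unfold outT
    have h3 : (∃ w : List Bool, w.length ≤ G ∧ leaf M N (pairBits w (inT n x.val)) a' = true) ↔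
        (∃ w : List Bool, w.length ≤ G ∧ leaf M N (pairBits w (inT n x.val)) a = true) :=
      exists_congr fun w => and_congr_right fun hw => by rw [h2 w hw]
    exact decide_eq_decide.2 h3

/-- The event. -/
def EvT (M : Alg) (G n m N : ℕ) (hN : 2 ^ (2 * n + 2 * m + 2) ≤ N) (a : Fin N → Bool) : Prop :=
  ∀ x : Fin (2 ^ (n / 2)), (outT M G n N x a = true ↔
    ∃ w : Fin m → Bool, ∀ i : Fin m, a (posT n m N hN x w i) = true)

open Classical in
theorem evT_bound (h : St_plant) (M : Alg) (G n m N t : ℕ) (hN : 2 ^ (2 * n + 2 * m + 2) ≤ N)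
    (ht : ∀ c : ℕ, c ≤ G → M.p.eval (2 * c + 1 + n) ≤ t) (hm : 1 ≤ m)
    (hb : 2 * (2 ^ (n / 2) * (2 ^ (G + 1) * t)) ≤ 2 ^ m) :
    Ex unif (fun a : Fin N → Bool => if EvT M G n m N hN a then (1 : ℝ) else 0) ≤
      (2 / 3) ^ (2 ^ (n / 2) / 8) + (2 * (7 / 8) ^ 8) ^ (2 ^ (n / 2) / 8) := by
  have h1 := h (Fin N) (Fin (2 ^ (n / 2))) inferInstance inferInstance inferInstance m
    (2 ^ (G + 1) * t) (posT n m N hN) (outT M G n N) (posT_inj n m N hN)
    (fun x a => outT_cert M G n N t ht x a) hm (by rw [Fintype.card_fin]; exact hb)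
  rw [Fintype.card_fin] at h1
  refine le_trans (le_of_eq ?_) h1
  refine congrArg (Ex unif) (funext fun a => ?_)
  by_cases hE : EvT M G n m N hN a
  · rw [if_pos hE]
    exact (if_pos hE).symm
  · rw [if_neg hE]
    exact (if_neg hE).symm

/-- the oracles for which the machine is right -/
def EasyT (g : ℕ → ℕ) (k : ℕ) (M : Alg) : Set Oracle :=
  {A | ∀ x : List Bool, x ∈ tLang k A ↔
    ∃ w : List Bool, w.length ≤ g x.length ∧ M.out A (pairBits w x) = some [true]}

theorem mem_easyT {g : ℕ → ℕ} {k : ℕ} {A : Oracle} (h : IsNPg g A (tLang k A)) :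
    ∃ M, A ∈ EasyT g k M := by
  obtain ⟨V, ⟨M, hM⟩, hV⟩ := h
  refine ⟨M, fun x => (hV x).trans ?_⟩
  refine exists_congr fun w => and_congr_right fun _ => ?_
  rw [hM, Option.some.injEq]

/-- the polynomial for the lengths of the inputs of the machine -/
noncomputable def LT (k : ℕ) : Polynomial ℕ := 2 * Polynomial.X ^ (k + 1) + 1 + Polynomial.X

theorem eval_LT (k n : ℕ) : (LT k).eval n = 2 * n ^ (k + 1) + 1 + n := by
  simp [LT]

theorem evT_of_easy (g : ℕ → ℕ) (k : ℕ) (M : Alg) : ∃ Q : Polynomial ℕ, ∀ A ∈ EasyT g k M,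
    ∀ n N : ℕ, g n ≤ n ^ (k + 1) → 2 ^ (Q.eval n + 1) ≤ N →
    ∀ hN : 2 ^ (2 * n + 2 * n ^ (k + 1) + 2) ≤ N, EvT M (g n) n (n ^ (k + 1)) N hN (pre N A) := by
  classical
  obtain ⟨qb, hqb⟩ := Alg.out_local M
  refine ⟨qb.comp (LT k), ?_⟩
  intro A hA n N hg hN1 hN x
  have hloc : ∀ y : List Bool, y.length ≤ (LT k).eval n →
      M.out (orc N (pre N A)) y = M.out A y := by
    intro y hy
    obtain ⟨Q, _, hQl, hQA⟩ := hqb A y
    apply hQA
    intro q hq
    apply orc_pre
    have h2 := idx_lt q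
    have h3 : q.length ≤ qb.eval ((LT k).eval n) := (hQl q hq).trans (eval_mono _ hy)
    rw [Polynomial.eval_comp] at hN1
    have h4 : 2 ^ (q.length + 1) ≤ 2 ^ (qb.eval ((LT k).eval n) + 1) :=
      Nat.pow_le_pow_right (by norm_num) (by omega)
    omega
  have h1 : outT M (g n) n N x (pre N A) = true ↔ inT n x.val ∈ tLang k A := by
    rw [hA (inT n x.val), length_inT]
    unfold outT
    rw [decide_eq_true_eq]
    refine exists_congr fun w => and_congr_right fun hw => ?_
    unfold leaf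
    rw [decide_eq_true_eq, hloc]
    rw [length_pairBits, length_inT, eval_LT]
    omega
  rw [h1]
  have h5 : ∀ (w : Fin (n ^ (k + 1)) → Bool) (i : Fin (n ^ (k + 1))),
      pre N A (posT n (n ^ (k + 1)) N hN x w i) = A (slT n x.val (List.ofFn w) i.val) := by
    intro w i
    show A (str (idx (slT n x.val (List.ofFn w) i.val))) = _
    rw [str_idx]
  simp only [h5]
  constructor
  · rintro ⟨w, hw, hA'⟩
    rw [length_inT] at hw
    refine ⟨fun i => w[i.val]'(by rw [hw]; exact i.2), fun i => ?_⟩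
    have h6 : List.ofFn (fun i : Fin (n ^ (k + 1)) => w[i.val]'(by rw [hw]; exact i.2)) = w := by
      apply List.ext_getElem
      · rw [List.length_ofFn, hw]
      · intro j hj1 hj2
        rw [List.getElem_ofFn]
    rw [h6]
    exact hA' i.val (by rw [hw]; exact i.2)
  · rintro ⟨w, hw⟩
    refine ⟨List.ofFn w, by rw [List.length_ofFn, length_inT], fun i hi => ?_⟩
    rw [List.length_ofFn] at hi
    exact hw ⟨i, hi⟩

/-- eventual facts -/
theorem ev_facts (δ : ℝ) : ∀ᶠ n : ℕ in atTop,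
    1 / δ ≤ 2 ^ ((2 : ℝ) ^ (n / 2 - 3) / 8) ∧
      (Real.sqrt n) + 4 ≤ ((n / 2 - 3 : ℕ) : ℝ) ∧ 100 ≤ n := by
  have hu : Tendsto (fun n : ℕ => n / 2 - 3) atTop atTop :=
    (tendsto_sub_atTop_nat 3).comp (Nat.tendsto_div_const_atTop (by norm_num))
  have hTt : Tendsto (fun u : ℕ => (2 : ℝ) ^ u) atTop atTop :=
    tendsto_pow_atTop_atTop_of_one_lt (by norm_num)
  filter_upwards [hu.eventually (hTt.eventually (Y_real 0 δ)), eventually_ge_atTop 100] with n h2 h3
  refine ⟨h2.2, ?_, h3⟩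
  have h4 : (n : ℝ) ≤ 2 * ((n / 2 - 3 : ℕ) : ℝ) + 7 := by
    have : n ≤ 2 * (n / 2 - 3) + 7 := by omega
    exact_mod_cast this
  have h5 : (100 : ℝ) ≤ n := by exact_mod_cast h3
  have h6 : Real.sqrt n ≤ (n : ℝ) / 10 := by
    rw [Real.sqrt_le_left (by linarith)]
    nlinarith
  linarith

theorem half' (T : ℕ) : ((2 : ℝ) * (7 / 8) ^ 8) ^ T ≤ 2 ^ (-((T : ℝ) / 2)) := by
  have h1 : ((2 : ℝ) * (7 / 8) ^ 8) ≤ 2 ^ (-(1 / 2 : ℝ)) := by
    rw [Real.rpow_neg (by norm_num), ← Real.sqrt_eq_rpow, le_inv_comm₀ (by positivity)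
      (by positivity)]
    rw [Real.sqrt_le_left (by positivity)]
    norm_num
  calc ((2 : ℝ) * (7 / 8) ^ 8) ^ T ≤ (2 ^ (-(1 / 2 : ℝ))) ^ T :=
        pow_le_pow_left₀ (by positivity) h1 T
    _ = 2 ^ (-((T : ℝ) / 2)) := by
        rw [← Real.rpow_natCast, ← Real.rpow_mul (by norm_num)]
        congr 1
        ring

/-- the final estimate -/
theorem final (f : ℕ → ℝ) (δ : ℝ) (hδ : 0 < δ) (n N : ℕ) (h1 : 1 / δ ≤ 2 ^ ((2 : ℝ) ^ (n / 2 - 3) / 8))
    (h2 : (Real.sqrt n) + 4 ≤ ((n / 2 - 3 : ℕ) : ℝ)) (h3 : 100 ≤ n) (hf : f N ≤ 2 ^ Real.sqrt n) :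
    ((2 / 3 : ℝ) ^ (2 ^ (n / 2) / 8) + (2 * (7 / 8) ^ 8) ^ (2 ^ (n / 2) / 8)) * 2 ^ f N ≤ δ := by
  set u : ℕ := n / 2 - 3 with hu
  have hK : 2 ^ (n / 2) / 8 = 2 ^ u := by
    have : n / 2 = u + 3 := by omega
    rw [this, pow_add]
    omega
  rw [hK]
  have hF : 16 * f N ≤ (2 : ℝ) ^ u := by
    have h1 : f N ≤ 2 ^ ((u : ℝ) - 4) :=
      hf.trans (Real.rpow_le_rpow_of_exponent_le (by norm_num) (by linarith))
    rw [Real.rpow_sub (by norm_num), Real.rpow_natCast] at h1
    have h2 : (2 : ℝ) ^ (4 : ℝ) = 16 := by norm_num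
    rw [h2] at h1
    linarith
  have hT1 : (8 : ℝ) ≤ (2 : ℝ) ^ u := by
    have h3 : 3 ≤ u := by omega
    calc (8 : ℝ) = 2 ^ 3 := by norm_num
      _ ≤ 2 ^ u := pow_le_pow_right₀ (by norm_num) h3
  have hm := V69_real δ hδ 0 (2 ^ u) (f N) (by rw [mul_zero]; positivity) hF h1 hT1
  rw [Real.rpow_zero, one_mul] at hm
  have ha := V69_half (2 ^ u)
  have hb := half' (2 ^ u)
  push_cast at ha hb
  refine le_trans ?_ hm
  apply mul_le_mul_of_nonneg_right _ (by positivity)
  linarith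

end T2

open T2 in
theorem t_nullT (h : St_plant) : St_nullT := by
  intro f g k hf hg
  refine (null_iUnion (f := f) (EasyT g k) fun M => ?_).mono fun A hA => ?_
  · intro δ hδ
    obtain ⟨Q, hQ⟩ := evT_of_easy g k M
    set P : Polynomial ℕ := M.p.comp (LT k) with hP
    set c : ℕ := 2 + P.eval 1 + P.natDegree with hc
    obtain ⟨n, N, ⟨hgn, h1, h2, h3⟩, hN, hfN⟩ := V69_choose
      (Q + 2 * Polynomial.X + 2 * Polynomial.X ^ (k + 1) + 1) f hf _ ((hg c).and (ev_facts δ))
    have hQe : (Q + 2 * Polynomial.X + 2 * Polynomial.X ^ (k + 1) + 1).eval n =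
        Q.eval n + 2 * n + 2 * n ^ (k + 1) + 1 := by simp
    rw [hQe] at hN
    have hN1 : 2 ^ (Q.eval n + 1) ≤ N :=
      le_trans (Nat.pow_le_pow_right (by norm_num) (by omega)) hN
    have hN2 : 2 ^ (2 * n + 2 * n ^ (k + 1) + 2) ≤ N :=
      le_trans (Nat.pow_le_pow_right (by norm_num) (by omega)) hN
    have hgm : g n ≤ n ^ (k + 1) := by omega
    refine cover_of_event (EvT M (g n) n (n ^ (k + 1)) N hN2) (EasyT g k M)
      (fun A hA => hQ A hA n N hgm hN1 hN2) f δ ?_
    have hPe : P.eval n = M.p.eval (2 * n ^ (k + 1) + 1 + n) := by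
      rw [hP, Polynomial.eval_comp, eval_LT]
    have hev := evT_bound h M (g n) n (n ^ (k + 1)) N (P.eval n) hN2 (by
        intro c hc
        rw [hPe]
        apply eval_mono
        omega) (Nat.one_le_pow _ _ (by omega)) (by
        have h4 : P.eval n ≤ 2 ^ (P.eval 1 + (P.natDegree + P.natDegree * Nat.log 2 n)) := by
          refine (Y_poly_le P n (by omega)).trans ?_
          rw [pow_add]
          have h5 : n ≤ 2 ^ (1 + Nat.log 2 n) := by
            have := Nat.lt_pow_succ_log_self (b := 2) (by norm_num) n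
            rw [Nat.succ_eq_add_one, add_comm] at this
            exact this.le
          have h6 : n ^ P.natDegree ≤ 2 ^ (P.natDegree + P.natDegree * Nat.log 2 n) := by
            calc n ^ P.natDegree ≤ (2 ^ (1 + Nat.log 2 n)) ^ P.natDegree :=
                  Nat.pow_le_pow_left h5 _
              _ = 2 ^ (P.natDegree + P.natDegree * Nat.log 2 n) := by
                  rw [← pow_mul]; congr 1; ring
          exact Nat.mul_le_mul Nat.lt_two_pow_self.le h6
        have h7 : P.natDegree * Nat.log 2 n ≤ c * Nat.log 2 n :=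
          Nat.mul_le_mul_right _ (by omega)
        calc 2 * (2 ^ (n / 2) * (2 ^ (g n + 1) * P.eval n))
            ≤ 2 * (2 ^ (n / 2) * (2 ^ (g n + 1) *
              2 ^ (P.eval 1 + (P.natDegree + P.natDegree * Nat.log 2 n)))) := by
              gcongr
          _ = 2 ^ (1 + (n / 2 + (g n + 1 +
              (P.eval 1 + (P.natDegree + P.natDegree * Nat.log 2 n))))) := by
              rw [pow_add 2 1, pow_add 2 (n / 2), pow_add 2 (g n + 1), pow_one]
          _ ≤ 2 ^ n ^ (k + 1) := Nat.pow_le_pow_right (by norm_num) (by omega))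
    exact (mul_le_mul_of_nonneg_right hev (by positivity)).trans
      (final f δ hδ n N h1 h2 h3 hfN)
  · obtain ⟨M, hM⟩ := mem_easyT hA
    exact Set.mem_iUnion.2 ⟨M, hM⟩

end Pool.Agent.H752.GM
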